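import Pool.Agent.H11.LGR.Targets

/-! Bounded exponent, all fields: base change to the algebraic closure. -/

set_option autoImplicit false

open MvPolynomial Pool.Agent.H87.CLG Pool.Agent.H11.LGR
open scoped TensorProduct

namespace Pool.Agent.H59.LGR

theorem pf_FLD (hFAC : T_FAC) : T_FLD := by
  intro n ν hν
  obtain ⟨e, he, h⟩ := hFAC n ν hν
  refine ⟨e, he, ?_⟩
  intro F W Γ _ _ _ _ X ρ g hspan hX hL γ
  have hfin : FiniteDimensional F W := Module.finite_def.2
    (Submodule.fg_def.2 ⟨Set.range g, Set.finite_range g, hspan⟩)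
  let E := AlgebraicClosure F
  let β : Module.End F W →ₐ[F] Module.End E (E ⊗[F] W) := Module.End.baseChangeHom F E W
  let ρ' : Γ →* Module.End E (E ⊗[F] W) := (β : Module.End F W →* Module.End E (E ⊗[F] W)).comp ρ
  have hdim : Module.finrank E (E ⊗[F] W) ≤ n := by
    rw [Module.finrank_baseChange]
    have h1 := finrank_range_le_card (R := F) g
    rw [Set.finrank, hspan, finrank_top, Fintype.card_fin] at h1
    exact h1
  have hL' : LX ν X ρ' := by
    intro l hl
    show β (ρ l.prod) ^ ν l.length = 1
    rw [← map_pow, hL l hl, map_one]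
  have h2 : β (ρ (γ ^ e)) = 1 := h E (E ⊗[F] W) Γ X ρ' hX hL' hdim γ
  have hinj : Function.Injective β := LinearMap.baseChangeHom_injective F W E
  apply hinj
  rw [h2, map_one]

end Pool.Agent.H59.LGR
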