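import Pool.Agent.H11.LGR.Targets

/-! Localization at the minimal primes is injective. -/

set_option autoImplicit false

open MvPolynomial Pool.Agent.H87.CLG Pool.Agent.H11.LGR

namespace Pool.Agent.H59.LGR

section

variable {R M S Γ : Type} [CommRing R] [AddCommGroup M] [Module R M] [Group S] [Group Γ] {n : ℕ}

/-- a relation modulo `L` -/
def Rl (A : Sys R M S Γ n) (L : Submodule R M) (k : Fin n → R) : Prop := ∑ i, k i • A.g i ∈ L

theorem rl_sR (A : Sys R M S Γ n) {L : Submodule R M} (hL : Stab A L) {k : Fin n → R}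
    (hk : Rl A L k) (σ : S) : Rl A L fun i => A.sR σ (k i) := by
  have h1 := hL.s σ _ hk
  rw [map_sum] at h1
  have e : ∑ i, A.sM σ (k i • A.g i) = ∑ i, A.sR σ (k i) • A.g i :=
    Finset.sum_congr rfl fun i _ => by rw [A.semi, A.fix]
  rw [e] at h1
  exact h1

theorem rl_smul (A : Sys R M S Γ n) {L : Submodule R M} {v : Fin n → R} {t : R}
    (h : t • ∑ i, v i • A.g i ∈ L) : Rl A L fun i => t * v i := by
  unfold Rl
  have e : ∑ i, (t * v i) • A.g i = t • ∑ i, v i • A.g i := by
    rw [Finset.smul_sum]
    exact Finset.sum_congr rfl fun i _ => by rw [mul_smul]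
  rw [e]
  exact h

/-- there is a minor of order `s` which is not in the annihilator -/
def Qs (A : Sys R M S Γ n) (L : Submodule R M) (s : ℕ) : Prop :=
  ∃ (k : Fin s → Fin n → R) (I : Fin s → Fin n), (∀ j, Rl A L (k j)) ∧ mn k I ∉ ann L

theorem qs_le (A : Sys R M S Γ n) (L : Submodule R M) (s : ℕ) (hs : n < s) : ¬ Qs A L s := by
  rintro ⟨k, I, -, h⟩
  apply h
  have hni : ¬ Function.Injective I := by
    intro hinj
    have := Fintype.card_le_of_injective I hinj
    rw [Fintype.card_fin, Fintype.card_fin] at this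
    omega
  simp only [Function.Injective, not_forall] at hni
  obtain ⟨a, b, hab, hne⟩ := hni
  have h0 : mn k I = 0 := by
    unfold mn
    apply Matrix.det_zero_of_row_eq hne
    funext c
    simp only [Matrix.of_apply, hab]
  rw [h0]
  exact (ann L).zero_mem

theorem mn_snoc {s : ℕ} (k : Fin s → Fin n → R) (v : Fin n → R) (t : R)
    (I : Fin (s + 1) → Fin n) :
    mn (Fin.snoc k (fun i => t * v i) : Fin (s + 1) → Fin n → R) I =
      t * mn (Fin.snoc k v : Fin (s + 1) → Fin n → R) I := by
  have h := Matrix.det_mul_row (Fin.snoc (fun _ => 1) t : Fin (s + 1) → R)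
    (Matrix.of fun a b => (Fin.snoc k v : Fin (s + 1) → Fin n → R) b (I a))
  have hp : ∏ i, (Fin.snoc (fun _ => 1) t : Fin (s + 1) → R) i = t := by
    rw [Fin.prod_univ_castSucc]
    simp
  rw [hp] at h
  unfold mn
  rw [← h]
  congr 1
  ext a b
  refine Fin.lastCases ?_ (fun b => ?_) b
  · simp
  · simp

theorem pf_MNI (hMNR : T_MNR) : T_MNI := by
  intro R M S Γ _ _ _ _ _ n A L hL hrad hJ u hu
  by_cases h1 : (1 : R) ∈ ann L
  · have := h1 u
    rwa [one_smul] at this
  -- the largest order
  obtain ⟨s, hs, hs1⟩ : ∃ s, Qs A L s ∧ ¬ Qs A L (s + 1) := by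
    by_contra hcon
    push Not at hcon
    have hall : ∀ s, Qs A L s := by
      intro s
      induction s with
      | zero =>
        refine ⟨Fin.elim0, Fin.elim0, fun j => j.elim0, ?_⟩
        unfold mn
        rw [Matrix.det_fin_zero]
        exact h1
      | succ s ih => exact hcon s ih
    exact qs_le A L (n + 1) (Nat.lt_succ_self n) (hall (n + 1))
  let T : Set R := {d | ∃ (k : Fin s → Fin n → R) (I : Fin s → Fin n),
    (∀ j, Rl A L (k j)) ∧ mn k I = d}
  have hSI : SI A (Ideal.span T) := by
    intro σ r hr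
    induction hr using Submodule.span_induction with
    | mem x hx =>
      obtain ⟨k, I, hk, rfl⟩ := hx
      apply Ideal.subset_span
      refine ⟨fun j i => A.sR σ (k j i), I, fun j => rl_sR A hL (hk j) σ, ?_⟩
      unfold mn
      rw [RingHom.map_det]
      rfl
    | zero =>
      rw [map_zero]
      exact Submodule.zero_mem _
    | add x y _ _ hx hy =>
      rw [map_add]
      exact Submodule.add_mem _ hx hy
    | smul a x _ hx =>
      rw [smul_eq_mul, map_mul]
      exact Ideal.mul_mem_left _ _ hx
  have hcol : col L (Ideal.span T) ≤ L := by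
    rcases hJ (Ideal.span T) hSI with h | h
    · exfalso
      obtain ⟨k, I, hk, hd⟩ := hs
      exact hd (h (Ideal.subset_span ⟨k, I, hk, rfl⟩))
    · exact h
  apply hcol
  obtain ⟨v, hv⟩ : ∃ v : Fin n → R, ∑ i, v i • A.g i = u := by
    have : u ∈ Submodule.span R (Set.range A.g) := by rw [A.span]; trivial
    exact (Submodule.mem_span_range_iff_exists_fun R).1 this
  intro r hr
  induction hr using Submodule.span_induction with
  | mem x hx =>
    obtain ⟨k, I, hk, rfl⟩ := hx
    rw [← hv]
    apply hMNR R M n s A.g L k v I hk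
    intro i
    have hr : ann L = sInf (ann L).minimalPrimes := by
      rw [Ideal.sInf_minimalPrimes]
      exact hrad.radical.symm
    rw [hr, Ideal.mem_sInf]
    intro P hP
    obtain ⟨t, ht, htu⟩ := hu P hP
    have hPp : P.IsPrime := hP.1.1
    rw [← hv] at htu
    have h2 : mn (Fin.snoc k (fun i => t * v i) : Fin (s + 1) → Fin n → R)
        (Fin.snoc I i : Fin (s + 1) → Fin n) ∈ ann L := by
      by_contra h3
      apply hs1
      refine ⟨_, _, ?_, h3⟩
      intro j
      refine Fin.lastCases ?_ (fun j => ?_) j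
      · rw [Fin.snoc_last]
        exact rl_smul A htu
      · rw [Fin.snoc_castSucc]
        exact hk j
    rw [mn_snoc] at h2
    exact (hPp.mem_or_mem (hP.1.2 h2)).resolve_left ht
  | zero =>
    rw [zero_smul]
    exact L.zero_mem
  | add x y _ _ hx hy =>
    rw [add_smul]
    exact L.add_mem hx hy
  | smul a x _ hx =>
    rw [smul_eq_mul, mul_smul]
    exact L.smul_mem a hx

end

end Pool.Agent.H59.LGR
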