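import Pool.Agent.H11.LGR.Targets

/-! Nil ideals of bounded index in characteristic `p`. -/

set_option autoImplicit false

open MvPolynomial Pool.Agent.H87.CLG Pool.Agent.H11.LGR

namespace Pool.Agent.H59.LGR

section

variable {R M : Type} [CommRing R] [AddCommGroup M] [Module R M]

/-- polynomials with coefficients in the annihilator vanish at endomorphisms of the quotient -/
theorem aeval_ann (L : Submodule R M) (φ : Module.End R (M ⧸ L)) (f : Polynomial R)
    (h : f.map (Ideal.Quotient.mk (ann L)) = 0) : Polynomial.aeval φ f = 0 := by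
  rw [Polynomial.aeval_eq_sum_range]
  apply Finset.sum_eq_zero
  intro i _
  have h1 : f.coeff i ∈ ann L := by
    have := congrArg (fun g => g.coeff i) h
    simp only [Polynomial.coeff_map, Polynomial.coeff_zero] at this
    exact Ideal.Quotient.eq_zero_iff_mem.1 this
  ext x
  rw [LinearMap.comp_apply, LinearMap.smul_apply]
  obtain ⟨y, hy⟩ := Submodule.mkQ_surjective L ((φ ^ i) (L.mkQ x))
  rw [← hy, ← map_smul]
  simp only [Submodule.mkQ_apply, LinearMap.zero_comp, LinearMap.zero_apply]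
  exact (Submodule.Quotient.mk_eq_zero L).2 (h1 y)

theorem nilp (L : Submodule R M) (J : Ideal R) (p s d : ℕ) (hp : p.Prime)
    (hne : (1 : R) ∉ ann L) (hpL : (p : R) ∈ ann L) (hJ : ∀ r ∈ J, r ^ p ^ s ∈ ann L)
    (φ : Module.End R (M ⧸ L)) (q : Polynomial R) (hq : q.Monic) (hd : q.natDegree = d)
    (hc : ∀ i < d, q.coeff i ∈ J) (h0 : Polynomial.aeval φ q = 0) :
    (1 + φ) ^ p ^ (d + s) = 1 := by
  have hnt : Nontrivial (R ⧸ ann L) := Ideal.Quotient.nontrivial_iff.2 ((Ideal.ne_top_iff_one _).2 hne)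
  have hp0 : ((p : ℕ) : R ⧸ ann L) = 0 := by
    have := Ideal.Quotient.eq_zero_iff_mem.2 hpL
    rwa [map_natCast] at this
  have hchar : CharP (R ⧸ ann L) p := by
    have := CharP.ringChar_of_prime_eq_zero hp hp0
    rw [← this]
    exact ringChar.charP _
  have : Fact p.Prime := ⟨hp⟩
  -- the power of `q`
  have h1 : Polynomial.aeval φ (q ^ p ^ s - Polynomial.X ^ (d * p ^ s)) = 0 := by
    apply aeval_ann
    rw [Polynomial.map_sub, Polynomial.map_pow, Polynomial.map_pow, Polynomial.map_X]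
    conv_lhs => rw [hq.as_sum, hd]
    rw [Polynomial.map_add, Polynomial.map_pow, Polynomial.map_X, Polynomial.map_sum,
      add_pow_char_pow, sum_pow_char_pow, ← pow_mul]
    rw [Finset.sum_eq_zero, add_zero, sub_self]
    intro i hi
    rw [Polynomial.map_mul, Polynomial.map_C, mul_pow, ← Polynomial.C_pow, ← map_pow]
    rw [Ideal.Quotient.eq_zero_iff_mem.2 (hJ _ (hc i (Finset.mem_range.1 hi))), Polynomial.C_0,
      zero_mul]
  rw [map_sub, map_pow, map_pow, h0, Polynomial.aeval_X, zero_pow (pow_pos hp.pos s).ne',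
    zero_sub, neg_eq_zero] at h1
  have h2 : Polynomial.aeval φ ((1 + Polynomial.X) ^ p ^ (d + s) - (1 + Polynomial.X ^ p ^ (d + s)) :
      Polynomial R) = 0 := by
    apply aeval_ann
    rw [Polynomial.map_sub, Polynomial.map_pow, Polynomial.map_add, Polynomial.map_add,
      Polynomial.map_pow, Polynomial.map_X, Polynomial.map_one, add_pow_char_pow, one_pow, sub_self]
  rw [map_sub, map_pow, map_add, map_add, map_pow, map_one, Polynomial.aeval_X, sub_eq_zero] at h2
  rw [h2]
  have h3 : d * p ^ s ≤ p ^ (d + s) := by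
    rw [pow_add]
    exact Nat.mul_le_mul_right _ (Nat.lt_pow_self hp.one_lt).le
  obtain ⟨r, hr⟩ := Nat.exists_eq_add_of_le h3
  rw [hr, pow_add, h1, zero_mul, add_zero]

end

theorem pf_RDP : T_RDP := by
  intro R M S Γ _ _ _ _ _ n A L J p s hL hp hPT hJ hEx
  obtain ⟨e, he, h⟩ := hEx
  by_cases h1 : (1 : R) ∈ ann L
  · refine ⟨1, one_pos, fun γ m => ?_⟩
    have := h1 (A.ρ (γ ^ 1) m - m)
    rwa [one_smul] at this
  have hfin : Module.Finite R M := Module.finite_def.2
    (Submodule.fg_def.2 ⟨Set.range A.g, Set.finite_range A.g, A.span⟩)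
  set d := (⊤ : Submodule R (M ⧸ L)).spanFinrank with hd
  refine ⟨e * p ^ (d + s), Nat.mul_pos he (pow_pos hp.pos _), fun γ m => ?_⟩
  have hst : L ≤ L.comap (A.ρ (γ ^ e)) := fun x hx => hL.r _ x hx
  let ψ : Module.End R (M ⧸ L) := L.mapQ L (A.ρ (γ ^ e)) hst
  have hrange : LinearMap.range (ψ - 1) ≤ J • ⊤ := by
    rintro _ ⟨x, rfl⟩
    obtain ⟨y, rfl⟩ := Submodule.mkQ_surjective L x
    have h2 : (ψ - 1) (L.mkQ y) = L.mkQ (A.ρ (γ ^ e) y - y) := by
      rw [LinearMap.sub_apply, map_sub]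
      rfl
    rw [h2]
    have h3 : L.mkQ (A.ρ (γ ^ e) y - y) ∈ (L ⊔ J • ⊤).map L.mkQ :=
      Submodule.mem_map_of_mem (h γ y)
    rw [Submodule.map_sup, Submodule.map_smul'', Submodule.map_top, Submodule.range_mkQ] at h3
    have h4 : L.map L.mkQ = ⊥ := by
      rw [eq_bot_iff, Submodule.map_le_iff_le_comap, Submodule.comap_bot, Submodule.ker_mkQ]
    rw [h4, bot_sup_eq] at h3
    exact h3
  obtain ⟨q, hq, hqd, hqc, hq0⟩ :=
    LinearMap.exists_monic_and_natDegree_eq_and_coeff_mem_pow_and_aeval_eq_zero R (ψ - 1) J hrange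
  have h5 := nilp L J p s d hp h1 (fun m => hPT m) hJ (ψ - 1) q hq (by rw [hqd]) (by
    intro i hi
    have h6 := hqc i
    rw [hqd] at h6
    exact Ideal.pow_le_self (by omega) h6) hq0
  rw [add_sub_cancel] at h5
  have h7 : ψ ^ p ^ (d + s) = L.mapQ L (A.ρ (γ ^ e) ^ p ^ (d + s))
      (L.le_comap_pow_of_le_comap hst _) := (Submodule.mapQ_pow L hst _).symm
  have h8 : L.mkQ (A.ρ (γ ^ (e * p ^ (d + s))) m) = L.mkQ m := by
    rw [pow_mul, map_pow]
    have h9 := LinearMap.congr_fun h5 (L.mkQ m)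
    rw [h7] at h9
    exact h9
  rw [← sub_eq_zero, ← map_sub] at h8
  exact (Submodule.Quotient.mk_eq_zero L).1 h8

end Pool.Agent.H59.LGR
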